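import Pool.Agent.Y33.SM.Stm

/-!
# Superlinear divergence gives cut points in all asymptotic cones

Job SM-CONE of the project SM of helper33.
-/

set_option autoImplicit false

namespace Pool.Agent.Y109.SM

open Pool.Agent.Y33.SM Pool.Agent.H659R3.MorseLim Pool.Agent.Y33.LG Filter Topology

/-! ### Existence of the cone -/

section Exist

variable {X : Type} [MetricSpace X]

/-- sequences at bounded rescaled distance -/
abbrev Sq (s : ℕ → ℝ) (e : ℕ → X) : Type :=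
  {x : ℕ → X // ∃ K : ℝ, ∀ j, dist (x j) (e j) ≤ K * s j}

lemma lim_exists (ω : Ultrafilter ℕ) (s : ℕ → ℝ) (e : ℕ → X) (hs : ∀ j, 0 < s j) (x y : Sq s e) :
    ∃ l : ℝ, Tendsto (fun j => dist (x.1 j) (y.1 j) / s j) ω (𝓝 l) := by
  obtain ⟨K, hK⟩ := x.2
  obtain ⟨K', hK'⟩ := y.2
  have h : ∀ j, dist (x.1 j) (y.1 j) / s j ∈ Set.Icc (0 : ℝ) (K + K') := by
    intro j
    refine ⟨div_nonneg dist_nonneg (hs j).le, ?_⟩
    rw [div_le_iff₀ (hs j)]
    have := dist_triangle_right (x.1 j) (y.1 j) (e j)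
    nlinarith [hK j, hK' j]
  have h2 : Set.Icc (0 : ℝ) (K + K') ∈ (ω.map (fun j => dist (x.1 j) (y.1 j) / s j)) :=
    Ultrafilter.mem_map.2 (Filter.univ_mem' h)
  obtain ⟨l, _, hl⟩ := isCompact_Icc.ultrafilter_le_nhds
    (ω.map (fun j => dist (x.1 j) (y.1 j) / s j)) (le_principal_iff.2 h2)
  exact ⟨l, hl⟩

/-- the type of the sequences with the pseudometric -/
def SqT (_ : Ultrafilter ℕ) (s : ℕ → ℝ) (e : ℕ → X) (_ : ∀ j, 0 < s j) : Type := Sq s e

noncomputable instance (ω : Ultrafilter ℕ) (s : ℕ → ℝ) (e : ℕ → X) (hs : ∀ j, 0 < s j) :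
    PseudoMetricSpace (SqT ω s e hs) where
  dist x y := (lim_exists ω s e hs x y).choose
  dist_self x := by
    refine tendsto_nhds_unique (lim_exists ω s e hs x x).choose_spec ?_
    simp only [dist_self, zero_div]
    exact tendsto_const_nhds
  dist_comm x y := by
    refine tendsto_nhds_unique (lim_exists ω s e hs x y).choose_spec ?_
    have := (lim_exists ω s e hs y x).choose_spec
    refine this.congr fun j => ?_
    rw [dist_comm]
  dist_triangle x y z := by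
    refine le_of_tendsto_of_tendsto' (lim_exists ω s e hs x z).choose_spec
      ((lim_exists ω s e hs x y).choose_spec.add (lim_exists ω s e hs y z).choose_spec)
      fun j => ?_
    rw [← add_div]
    exact div_le_div_of_nonneg_right (dist_triangle _ _ _) (hs j).le

lemma dist_spec (ω : Ultrafilter ℕ) (s : ℕ → ℝ) (e : ℕ → X) (hs : ∀ j, 0 < s j)
    (x y : SqT ω s e hs) :
    Tendsto (fun j => dist (x.1 j) (y.1 j) / s j) ω (𝓝 (dist x y)) :=
  (lim_exists ω s e hs x y).choose_spec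

theorem exists_cone (ω : Ultrafilter ℕ) (s : ℕ → ℝ) (e : ℕ → X) (hs : ∀ j, 0 < s j) :
    ∃ (C : Type) (_ : MetricSpace C), IsAsCone ω s e C := by
  refine ⟨SeparationQuotient (SqT ω s e hs), inferInstance,
    fun x => SeparationQuotient.mk (X := SqT ω s e hs) x, ?_, ?_⟩
  · intro c
    obtain ⟨x, hx⟩ := SeparationQuotient.surjective_mk c
    exact ⟨x, hx⟩
  · intro x y
    rw [SeparationQuotient.dist_mk]
    exact dist_spec ω s e hs x y

end Exist

/-! ### Paths in the Cayley graph -/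

section Path

variable {G : Type} [Group G] (A : FinGen G)

lemma exists_path (x y : G) : ∃ σ : ℕ → G, σ 0 = x ∧ σ (A.dist x y) = y ∧
    ∀ k, A.dist (σ k) (σ (k + 1)) ≤ 1 := by
  obtain ⟨l, h1, h2, h3⟩ := A.len_spec (x⁻¹ * y)
  refine ⟨fun k => x * (l.take k).prod, by simp, ?_, ?_⟩
  · show x * (l.take (A.dist x y)).prod = y
    rw [show A.dist x y = l.length from h1.symm, List.take_length, h3]
    group
  · intro k
    show A.dist (x * (l.take k).prod) (x * (l.take (k + 1)).prod) ≤ 1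
    by_cases hk : k < l.length
    · rw [List.prod_take_succ _ _ hk, ← mul_assoc]
      exact A.dist_mul_gen _ _ (h2 _ (List.getElem_mem hk))
    · rw [List.take_of_length_le (by omega), List.take_of_length_le (by omega), A.dist_self]
      exact Nat.zero_le _

lemma path_dist {σ : ℕ → G} (h : ∀ k, A.dist (σ k) (σ (k + 1)) ≤ 1) (m k : ℕ) :
    A.dist (σ m) (σ (m + k)) ≤ k := by
  induction k with
  | zero => simp
  | succ k ih =>
    have h1 := A.dist_triangle (σ m) (σ (m + k)) (σ (m + (k + 1)))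
    have h2 := h (m + k)
    rw [← add_assoc] at h1 ⊢
    omega

lemma path_dist' {σ : ℕ → G} (h : ∀ k, A.dist (σ k) (σ (k + 1)) ≤ 1) (m k : ℕ) :
    (A.dist (σ m) (σ k) : ℝ) ≤ |(m : ℝ) - k| := by
  rcases le_total m k with hmk | hmk
  · obtain ⟨d, rfl⟩ := Nat.exists_eq_add_of_le hmk
    have := path_dist A h m d
    have h2 : |(m : ℝ) - ((m + d : ℕ) : ℝ)| = d := by
      push_cast
      rw [show (m : ℝ) - (m + d) = -d by ring, abs_neg, abs_of_nonneg (Nat.cast_nonneg d)]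
    rw [h2]
    exact_mod_cast this
  · obtain ⟨d, rfl⟩ := Nat.exists_eq_add_of_le hmk
    have := path_dist A h k d
    rw [A.dist_comm] at this
    have h2 : |((k + d : ℕ) : ℝ) - (k : ℝ)| = d := by
      push_cast
      rw [show (k : ℝ) + d - k = d by ring, abs_of_nonneg (Nat.cast_nonneg d)]
    rw [h2]
    exact_mod_cast this

/-- a path from `u` to `v` of length at most `K` which stays at distance at least `ρ` from `o` -/
def Pth (K ρ : ℝ) (o u v : G) : Prop := ∃ (σ : ℕ → G) (N : ℕ),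
  (∀ k, k < N → A.dist (σ k) (σ (k + 1)) ≤ 1) ∧ σ 0 = u ∧ σ N = v ∧ (N : ℝ) ≤ K ∧
    ∀ k, k ≤ N → ρ ≤ A.dist o (σ k)

lemma Pth.mono {K K' ρ ρ' : ℝ} {o u v : G} (h : Pth A K ρ o u v) (hK : K ≤ K') (hρ : ρ' ≤ ρ) :
    Pth A K' ρ' o u v := by
  obtain ⟨σ, N, h1, h2, h3, h4, h5⟩ := h
  exact ⟨σ, N, h1, h2, h3, h4.trans hK, fun k hk => hρ.trans (h5 k hk)⟩

lemma Pth.trans {K K' ρ : ℝ} {o u v w : G} (h : Pth A K ρ o u v) (h' : Pth A K' ρ o v w) :
    Pth A (K + K') ρ o u w := by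
  obtain ⟨σ, N, h1, h2, h3, h4, h5⟩ := h
  obtain ⟨σ', N', h1', h2', h3', h4', h5'⟩ := h'
  refine ⟨fun k => if k ≤ N then σ k else σ' (k - N), N + N', ?_, ?_, ?_, ?_, ?_⟩
  · intro k hk
    show A.dist (if k ≤ N then σ k else σ' (k - N)) (if k + 1 ≤ N then σ (k + 1) else
      σ' (k + 1 - N)) ≤ 1
    by_cases hk1 : k + 1 ≤ N
    · rw [if_pos (by omega), if_pos hk1]
      exact h1 k (by omega)
    · by_cases hk2 : k ≤ N
      · have hkN : k = N := by omega
        subst hkN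
        rw [if_pos le_rfl, if_neg hk1, h3, ← h2', show k + 1 - k = 0 + 1 by omega]
        exact h1' 0 (by omega)
      · rw [if_neg hk2, if_neg hk1, show k + 1 - N = (k - N) + 1 by omega]
        exact h1' _ (by omega)
  · show (if 0 ≤ N then σ 0 else σ' (0 - N)) = u
    rw [if_pos (Nat.zero_le _), h2]
  · show (if N + N' ≤ N then σ (N + N') else σ' (N + N' - N)) = w
    by_cases h0 : N' = 0
    · subst h0
      rw [if_pos (by omega), add_zero, h3, ← h2', h3']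
    · rw [if_neg (by omega), Nat.add_sub_cancel_left, h3']
  · push_cast
    linarith
  · intro k hk
    show ρ ≤ A.dist o (if k ≤ N then σ k else σ' (k - N))
    by_cases hk2 : k ≤ N
    · rw [if_pos hk2]
      exact h5 k hk2
    · rw [if_neg hk2]
      exact h5' _ (by omega)

/-- a geodesic from `u` to `v` -/
lemma Pth.geod {ρ : ℝ} {o u v : G} (h : ρ + A.dist u v ≤ A.dist o u) :
    Pth A (A.dist u v) ρ o u v := by
  obtain ⟨σ, h1, h2, h3⟩ := exists_path A u v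
  refine ⟨σ, A.dist u v, fun k _ => h3 k, h1, h2, le_rfl, fun k hk => ?_⟩
  have h4 := A.dist_triangle o (σ k) u
  have h5 := path_dist A h3 0 k
  rw [zero_add, h1, A.dist_comm] at h5
  have h6 : (A.dist o u : ℝ) ≤ A.dist o (σ k) + A.dist (σ k) u := by exact_mod_cast h4
  have h7 : (A.dist (σ k) u : ℝ) ≤ k := by exact_mod_cast h5
  have h8 : (k : ℝ) ≤ A.dist u v := by exact_mod_cast hk
  linarith

end Path

section Cone

variable {G : Type} [Group G] (A : FinGen G) (ω : Ultrafilter ℕ) (s : ℕ → ℝ) (e : ℕ → Cay A)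

lemma inv_tendsto (hω : (ω : Filter ℕ) ≤ cofinite) (hs : Tendsto s atTop atTop) :
    Tendsto (fun j => 1 / s j) ω (𝓝 0) := by
  rw [Nat.cofinite_eq_atTop] at hω
  simp only [one_div]
  exact (tendsto_inv_atTop_zero.comp hs).mono_left hω

/-- the base point -/
def bs : Sq s e := ⟨e, 0, fun j => by rw [dist_self, zero_mul]⟩

theorem connected (hω : (ω : Filter ℕ) ≤ cofinite) (hs : Tendsto s atTop atTop)
    (hpos : ∀ j, 0 < s j) (C : Type) [MetricSpace C] (f : Sq s e → C)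
    (hf : Function.Surjective f)
    (hlim : ∀ x y : Sq s e, Tendsto (fun j => dist (x.1 j) (y.1 j) / s j) ω
      (𝓝 (dist (f x) (f y)))) : ConnectedSpace C := by
  have key : ∀ y : C, ∃ t : Set C, f (bs A s e) ∈ t ∧ y ∈ t ∧ IsPreconnected t := by
    intro y
    obtain ⟨x, rfl⟩ := hf y
    obtain ⟨K, hK⟩ := x.2
    have hp := fun j => exists_path A (e j) (x.1 j)
    choose γ h0 h1 h2 using hp
    have hK' : ∀ j, (A.dist (G := G) (e j) (x.1 j) : ℝ) ≤ K * s j := by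
      intro j
      have := hK j
      rw [dist_comm, cay_dist] at this
      exact this
    have hsq : ∀ t : ℝ, 0 ≤ t → t ≤ 1 → ∀ j,
        @dist (Cay A) _ (γ j ⌊t * A.dist (G := G) (e j) (x.1 j)⌋₊) (e j) ≤ K * s j := by
      intro t ht0 ht1 j
      rw [cay_dist, A.dist_comm]
      have := path_dist' A (h2 j) 0 ⌊t * A.dist (G := G) (e j) (x.1 j)⌋₊
      rw [h0 j, Nat.cast_zero, zero_sub, abs_neg, abs_of_nonneg (Nat.cast_nonneg _)] at this
      refine this.trans ((Nat.floor_le (mul_nonneg ht0 (Nat.cast_nonneg _))).trans ?_)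
      have h3 : (0 : ℝ) ≤ A.dist (G := G) (e j) (x.1 j) := Nat.cast_nonneg _
      nlinarith [hK' j]
    let F : Set.Icc (0 : ℝ) 1 → C := fun t =>
      f ⟨fun j => γ j ⌊t.1 * A.dist (G := G) (e j) (x.1 j)⌋₊, K, hsq t.1 t.2.1 t.2.2⟩
    have hF : ∀ t t' : Set.Icc (0 : ℝ) 1, dist (F t) (F t') ≤ K * dist t t' := by
      intro t t'
      have hl := ((inv_tendsto ω s hω hs).const_add (K * dist t t'))
      rw [add_zero] at hl
      refine le_of_tendsto_of_tendsto' (hlim _ _) hl fun j => ?_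
      rw [add_div' _ _ _ (hpos j).ne', div_le_div_iff_of_pos_right (hpos j), cay_dist]
      refine (path_dist' A (h2 j) _ _).trans ?_
      have hd : (0 : ℝ) ≤ A.dist (G := G) (e j) (x.1 j) := Nat.cast_nonneg _
      have a1 := Nat.floor_le (mul_nonneg t.2.1 hd)
      have a2 := Nat.lt_floor_add_one (t.1 * A.dist (G := G) (e j) (x.1 j))
      have a3 := Nat.floor_le (mul_nonneg t'.2.1 hd)
      have a4 := Nat.lt_floor_add_one (t'.1 * A.dist (G := G) (e j) (x.1 j))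
      have a5 : |t.1 - t'.1| * A.dist (G := G) (e j) (x.1 j) ≤ |t.1 - t'.1| * (K * s j) :=
        mul_le_mul_of_nonneg_left (hK' j) (abs_nonneg _)
      have a6 : (t.1 - t'.1) * A.dist (G := G) (e j) (x.1 j) ≤
          |t.1 - t'.1| * A.dist (G := G) (e j) (x.1 j) :=
        mul_le_mul_of_nonneg_right (le_abs_self _) hd
      have a7 : -(t.1 - t'.1) * A.dist (G := G) (e j) (x.1 j) ≤
          |t.1 - t'.1| * A.dist (G := G) (e j) (x.1 j) :=
        mul_le_mul_of_nonneg_right (neg_le_abs _) hd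
      have a8 : dist t t' = |t.1 - t'.1| := rfl
      rw [a8, abs_le]
      constructor <;> nlinarith
    have hcont : Continuous F := (LipschitzWith.of_dist_le' hF).continuous
    refine ⟨Set.range F, ⟨⟨0, by simp⟩, ?_⟩, ⟨⟨1, by simp⟩, ?_⟩, isPreconnected_range hcont⟩
    · show f _ = f _
      congr 1
      apply Subtype.ext
      funext j
      show γ j ⌊(0 : ℝ) * A.dist (G := G) (e j) (x.1 j)⌋₊ = e j
      rw [zero_mul, Nat.floor_zero, h0]
    · show f _ = f _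
      congr 1
      apply Subtype.ext
      funext j
      show γ j ⌊(1 : ℝ) * A.dist (G := G) (e j) (x.1 j)⌋₊ = x.1 j
      rw [one_mul, Nat.floor_natCast, h1]
  refine { isPreconnected_univ := ?_, toNonempty := ⟨f (bs A s e)⟩ }
  refine isPreconnected_of_forall (f (bs A s e)) fun y _ => ?_
  obtain ⟨t, ht1, ht2, ht3⟩ := key y
  exact ⟨t, Set.subset_univ _, ht1, ht2, ht3⟩

/-- `y` can be reached from the points `z j` -/
def Rch (C : Type) [MetricSpace C] (f : Sq s e → C) (z : ℕ → G) (y : C) : Prop :=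
  ∃ x : Sq s e, f x = y ∧ ∃ K ρ : ℝ, 0 < ρ ∧
    ∀ᶠ j in (ω : Filter ℕ), Pth A (K * s j) (ρ * s j) (e j) (z j) (x.1 j)

/-- the step of the chain -/
lemma step (hpos : ∀ j, 0 < s j) (C : Type) [MetricSpace C] (f : Sq s e → C)
    (hlim : ∀ x y : Sq s e, Tendsto (fun j => dist (x.1 j) (y.1 j) / s j) ω
      (𝓝 (dist (f x) (f y)))) (z : ℕ → G) (x y : Sq s e)
    (hd : dist (f x) (f y) < dist (f x) (f (bs A s e)) / 8)
    (h : ∃ K ρ : ℝ, 0 < ρ ∧
      ∀ᶠ j in (ω : Filter ℕ), Pth A (K * s j) (ρ * s j) (e j) (z j) (x.1 j)) :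
    ∃ K ρ : ℝ, 0 < ρ ∧
      ∀ᶠ j in (ω : Filter ℕ), Pth A (K * s j) (ρ * s j) (e j) (z j) (y.1 j) := by
  obtain ⟨K, ρ, hρ, hP⟩ := h
  set δ := dist (f x) (f (bs A s e)) with hδ
  have hδ0 : 0 < δ := by
    have : 0 ≤ dist (f x) (f y) := dist_nonneg
    linarith
  refine ⟨K + δ / 4, min ρ (δ / 2), lt_min hρ (by linarith), ?_⟩
  have e1 : ∀ᶠ j in (ω : Filter ℕ), dist (x.1 j) (y.1 j) / s j < δ / 4 :=
    (hlim x y).eventually_lt_const (by linarith)
  have e2 : ∀ᶠ j in (ω : Filter ℕ), 3 * δ / 4 < dist (x.1 j) (e j) / s j :=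
    (hlim x (bs A s e)).eventually_const_lt (by linarith)
  filter_upwards [hP, e1, e2] with j h1 h2 h3
  rw [div_lt_iff₀ (hpos j)] at h2
  rw [lt_div_iff₀ (hpos j)] at h3
  rw [cay_dist] at h2 h3
  have h4 : Pth A (A.dist (G := G) (x.1 j) (y.1 j)) (δ / 2 * s j) (e j) (x.1 j) (y.1 j) := by
    apply Pth.geod
    rw [A.dist_comm] at h3
    linarith
  have hs := hpos j
  have h5 := (h1.mono A le_rfl (ρ' := min ρ (δ / 2) * s j)
    (mul_le_mul_of_nonneg_right (min_le_left _ _) hs.le)).trans A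
    (h4.mono A h2.le (mul_le_mul_of_nonneg_right (min_le_right _ _) hs.le))
  rw [← add_mul] at h5
  exact h5

/-- chains of small steps in a preconnected complement of a point -/
lemma chain (C : Type) [MetricSpace C] (p x y : C) (hx : x ≠ p) (hy : y ≠ p)
    (hc : IsPreconnected ({p}ᶜ : Set C)) (R : C → Prop) (hR : R x)
    (hstep : ∀ u v : C, R u → dist u v < dist u p / 8 → R v) : R y := by
  by_contra hRy
  have hU : IsOpen {u : C | R u ∧ u ≠ p} := by
    rw [Metric.isOpen_iff]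
    rintro u ⟨hu, hup⟩
    have hd : 0 < dist u p := dist_pos.2 hup
    refine ⟨dist u p / 8, by linarith, fun v hv => ?_⟩
    rw [Metric.mem_ball, dist_comm] at hv
    refine ⟨hstep u v hu hv, ?_⟩
    rintro rfl
    linarith
  have hV : IsOpen {u : C | ¬ R u ∧ u ≠ p} := by
    rw [Metric.isOpen_iff]
    rintro u ⟨hu, hup⟩
    have hd : 0 < dist u p := dist_pos.2 hup
    refine ⟨dist u p / 16, by linarith, fun v hv => ?_⟩
    rw [Metric.mem_ball] at hv
    have htri := dist_triangle u v p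
    rw [dist_comm u v] at htri
    refine ⟨fun hRv => hu (hstep v u hRv (by linarith)), ?_⟩
    rintro rfl
    rw [dist_comm v u] at hv
    linarith
  obtain ⟨w, _, hw1, hw2⟩ := hc _ _ hU hV (fun u hu => by
    by_cases h : R u
    · exact Or.inl ⟨h, hu⟩
    · exact Or.inr ⟨h, hu⟩) ⟨x, hx, hR, hx⟩ ⟨y, hy, hRy, hy⟩
  exact hw2.1 hw1.1

lemma cut_mono {d : G → G → ℕ} {h : G} {C C' r r' D0 t1 : ℕ} (hC : C ≤ C') (hr : r ≤ r')
    (hc : Cut d h C' r' D0 t1) : Cut d h C r D0 t1 := by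
  intro t h1 h2 σ N h3 h4 h5 h6
  have := hc t h1 h2 σ N h3 h4 h5 fun k hk => (h6 k hk).trans (Nat.mul_le_mul_right _ hr)
  exact lt_of_le_of_lt (Nat.mul_le_mul_right _ hC) this

/-- one letter works for all constants -/
lemma one_letter (a b : G) (t : ℕ → ℕ)
    (h : ∀ C r : ℕ, ∀ᶠ j in (ω : Filter ℕ), Cut A.dist a C r (t j) (t j) ∨
      Cut A.dist b C r (t j) (t j)) :
    (∀ C r : ℕ, ∀ᶠ j in (ω : Filter ℕ), Cut A.dist a C r (t j) (t j)) ∨
      ∀ C r : ℕ, ∀ᶠ j in (ω : Filter ℕ), Cut A.dist b C r (t j) (t j) := by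
  by_contra hcon
  rw [not_or] at hcon
  obtain ⟨h1, h2⟩ := hcon
  obtain ⟨C1, h1⟩ := not_forall.1 h1
  obtain ⟨r1, h1⟩ := not_forall.1 h1
  obtain ⟨C2, h2⟩ := not_forall.1 h2
  obtain ⟨r2, h2⟩ := not_forall.1 h2
  rw [← Ultrafilter.eventually_not] at h1 h2
  have h3 := h (max C1 C2) (max r1 r2)
  rw [Ultrafilter.eventually_or] at h3
  rcases h3 with h3 | h3
  · obtain ⟨j, hj1, hj2⟩ := (h1.and h3).exists
    exact hj1 (cut_mono (le_max_left _ _) (le_max_left _ _) hj2)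
  · obtain ⟨j, hj1, hj2⟩ := (h2.and h3).exists
    exact hj1 (cut_mono (le_max_right _ _) (le_max_right _ _) hj2)

theorem cutpoint (hω : (ω : Filter ℕ) ≤ cofinite) (hs : Tendsto s atTop atTop)
    (hpos : ∀ j, 0 < s j) (C : Type) [MetricSpace C] (f : Sq s e → C)
    (hf : Function.Surjective f)
    (hlim : ∀ x y : Sq s e, Tendsto (fun j => dist (x.1 j) (y.1 j) / s j) ω
      (𝓝 (dist (f x) (f y)))) (h : G) (hlen : ∀ k : ℕ, A.len (h ^ k) = k)
    (hcut : ∀ C r : ℕ, ∀ᶠ j in (ω : Filter ℕ), Cut A.dist h C r ⌊s j⌋₊ ⌊s j⌋₊) :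
    ¬ IsPreconnected ({f (bs A s e)}ᶜ : Set C) := by
  intro hc
  let E : ℕ → G := e
  have hω' : (ω : Filter ℕ) ≤ atTop := by rwa [Nat.cofinite_eq_atTop] at hω
  have hs' : Tendsto s ω atTop := hs.mono_left hω'
  have d1 : ∀ j, A.dist (E j) (E j * h ^ ⌊s j⌋₊ : G) = ⌊s j⌋₊ := by
    intro j
    rw [FinGen.dist, show ((E j)⁻¹ * (E j * h ^ ⌊s j⌋₊ : G) : G) = h ^ ⌊s j⌋₊ from
      inv_mul_cancel_left _ _, hlen]
  have d2 : ∀ j, A.dist (E j) (E j * (h ^ ⌊s j⌋₊)⁻¹ : G) = ⌊s j⌋₊ := by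
    intro j
    rw [FinGen.dist, show ((E j)⁻¹ * (E j * (h ^ ⌊s j⌋₊)⁻¹ : G) : G) = (h ^ ⌊s j⌋₊)⁻¹ from
      inv_mul_cancel_left _ _, A.len_inv, hlen]
  let P : Sq s e := ⟨fun j => (E j * h ^ ⌊s j⌋₊ : G), 1, fun j => by
    rw [dist_comm, cay_dist, d1, one_mul]
    exact Nat.floor_le (hpos j).le⟩
  let Q : Sq s e := ⟨fun j => (E j * (h ^ ⌊s j⌋₊)⁻¹ : G), 1, fun j => by
    rw [dist_comm, cay_dist, d2, one_mul]
    exact Nat.floor_le (hpos j).le⟩
  have hev : ∀ᶠ j in (ω : Filter ℕ), 2 ≤ s j := hs'.eventually_ge_atTop 2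
  have hfl : ∀ᶠ j in (ω : Filter ℕ), s j / 2 ≤ ⌊s j⌋₊ := by
    filter_upwards [hev] with j hj
    have := Nat.lt_floor_add_one (s j)
    linarith
  have hP : f P ≠ f (bs A s e) := by
    intro heq
    have h1 := hlim P (bs A s e)
    rw [heq, dist_self] at h1
    have h2 : ∀ᶠ j in (ω : Filter ℕ), dist (P.1 j) (e j) / s j < 1 / 2 :=
      h1.eventually_lt_const (by norm_num)
    obtain ⟨j, h3, h4⟩ := (h2.and hfl).exists
    rw [div_lt_iff₀ (hpos j), dist_comm, cay_dist] at h3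
    have h5 : ((A.dist (E j) (P.1 j) : ℕ) : ℝ) = (⌊s j⌋₊ : ℕ) := by
      exact_mod_cast congrArg (Nat.cast : ℕ → ℝ) (d1 j)
    rw [h5] at h3
    linarith
  have hQ : f Q ≠ f (bs A s e) := by
    intro heq
    have h1 := hlim Q (bs A s e)
    rw [heq, dist_self] at h1
    have h2 : ∀ᶠ j in (ω : Filter ℕ), dist (Q.1 j) (e j) / s j < 1 / 2 :=
      h1.eventually_lt_const (by norm_num)
    obtain ⟨j, h3, h4⟩ := (h2.and hfl).exists
    rw [div_lt_iff₀ (hpos j), dist_comm, cay_dist] at h3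
    have h5 : ((A.dist (E j) (Q.1 j) : ℕ) : ℝ) = (⌊s j⌋₊ : ℕ) := by
      exact_mod_cast congrArg (Nat.cast : ℕ → ℝ) (d2 j)
    rw [h5] at h3
    linarith
  have hR : Rch A ω s e C f (fun j => (E j * h ^ ⌊s j⌋₊ : G)) (f Q) := by
    refine chain C (f (bs A s e)) (f P) (f Q) hP hQ hc _ ?_ ?_
    · refine ⟨P, rfl, 0, 1 / 2, by norm_num, ?_⟩
      filter_upwards [hfl] with j hj
      refine ⟨fun _ => (E j * h ^ ⌊s j⌋₊ : G), 0, fun k hk => absurd hk (Nat.not_lt_zero k), rfl,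
        rfl, by simp, fun k _ => ?_⟩
      rw [d1]
      linarith
    · rintro u v ⟨x, rfl, hx⟩ huv
      obtain ⟨y, rfl⟩ := hf v
      exact ⟨y, rfl, step A ω s e hpos C f hlim _ x y huv hx⟩
  obtain ⟨x, hx, hxx⟩ := hR
  obtain ⟨K, ρ, hρ, hfin⟩ := step A ω s e hpos C f hlim _ x Q (by
    rw [hx, dist_self]
    exact div_pos (dist_pos.2 hQ) (by norm_num)) hxx
  obtain ⟨C0, hC0⟩ := exists_nat_ge (2 * K)
  obtain ⟨r0, hr0⟩ := exists_nat_ge (1 / ρ)
  obtain ⟨j, ⟨h1, h2⟩, h3⟩ := (((hcut C0 r0).and hfin).and hfl).exists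
  obtain ⟨σ, N, p1, p2, p3, p4, p5⟩ := h2
  have hsj := hpos j
  have hK0 : 0 ≤ K := by
    by_contra hK
    have : K * s j < 0 := mul_neg_of_neg_of_pos (not_le.1 hK) hsj
    have : (0 : ℝ) ≤ N := Nat.cast_nonneg N
    linarith
  have hE : ∀ k, A.dist (1 : G) ((E j)⁻¹ * σ k) = A.dist (E j) (σ k) := by
    intro k
    rw [← A.dist_mul_left (E j)]
    congr 1
    · exact mul_one _
    · exact mul_inv_cancel_left _ _
  have hfin2 := h1 ⌊s j⌋₊ le_rfl le_rfl (fun k => (E j)⁻¹ * σ k) N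
    (fun k hk => by
      show A.dist ((E j)⁻¹ * σ k) ((E j)⁻¹ * σ (k + 1)) ≤ 1
      rw [A.dist_mul_left]
      exact p1 k hk)
    (by
      show (E j)⁻¹ * σ 0 = _
      rw [p2]
      exact inv_mul_cancel_left _ _)
    (by
      show (E j)⁻¹ * σ N = _
      rw [p3]
      exact inv_mul_cancel_left _ _)
    (fun k hk => by
      show _ ≤ r0 * A.dist 1 ((E j)⁻¹ * σ k)
      rw [hE]
      have h4 := p5 k hk
      have h5 : (⌊s j⌋₊ : ℝ) ≤ s j := Nat.floor_le hsj.le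
      have h6 : s j ≤ r0 * A.dist (E j) (σ k) := by
        have h7 : 1 ≤ r0 * ρ := by
          rw [div_le_iff₀ hρ] at hr0
          exact hr0
        have h8 : (0 : ℝ) ≤ r0 := Nat.cast_nonneg _
        calc s j ≤ (r0 * ρ) * s j := by nlinarith
          _ = r0 * (ρ * s j) := by ring
          _ ≤ r0 * A.dist (E j) (σ k) := mul_le_mul_of_nonneg_left h4 h8
      have h9 : (⌊s j⌋₊ : ℝ) ≤ ((r0 * A.dist (E j) (σ k) : ℕ) : ℝ) := by
        push_cast
        linarith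
      exact_mod_cast h9)
  have h10 : ((C0 * ⌊s j⌋₊ : ℕ) : ℝ) < N := by exact_mod_cast hfin2
  push_cast at h10
  have h11 : K * s j ≤ 2 * K * ⌊s j⌋₊ := by nlinarith
  have h12 : 2 * K * (⌊s j⌋₊ : ℝ) ≤ C0 * ⌊s j⌋₊ :=
    mul_le_mul_of_nonneg_right hC0 (Nat.cast_nonneg _)
  linarith

end Cone

theorem t : S_CONE := by
  intro G _ A a b ha hb hdiv ω s e hω hpos hs
  refine ⟨exists_cone ω s e hpos, fun C _ hC => ?_⟩
  obtain ⟨f, hf, hlim⟩ := hC
  refine ⟨connected A ω s e hω hs hpos C f hf hlim, f (bs A s e), ?_⟩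
  have hω' : (ω : Filter ℕ) ≤ atTop := by rwa [Nat.cofinite_eq_atTop] at hω
  have hs' : Tendsto s ω atTop := hs.mono_left hω'
  have h1 : ∀ C r : ℕ, ∀ᶠ j in (ω : Filter ℕ), Cut A.dist a C r ⌊s j⌋₊ ⌊s j⌋₊ ∨
      Cut A.dist b C r ⌊s j⌋₊ ⌊s j⌋₊ := by
    intro C r
    obtain ⟨D0, hD0⟩ := hdiv C r
    filter_upwards [hs'.eventually_ge_atTop (D0 : ℝ)] with j hj
    exact hD0 _ (Nat.le_floor hj)
  rcases one_letter A ω a b _ h1 with h2 | h2
  · exact cutpoint A ω s e hω hs hpos C f hf hlim a ha h2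
  · exact cutpoint A ω s e hω hs hpos C f hf hlim b hb h2

end Pool.Agent.Y109.SM
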